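import Pool.Agent.Lib.MP_9fe581_an.HX.SubZ
import Pool.Agent.Lib.MP_9fe581_an.HX.ExtY
import Pool.Agent.Lib.MP_9fe581_an.HX.Bundle
import Pool.Agent.Lib.MP_9fe581_an.HD.Moeb
import Pool.Agent.Lib.MP_9fe581_an.HD.MuShort

/-! EVERY extension (product or not) by EVERY compact group, with EVERY continuous cocycle, of every affine map of zero
entropy of a torus (in particular of every rotation) and of every finite tower of Furstenberg, is Moebius disjoint.  No
ergodicity, no smoothness of the extension, no condition on the rotation. -/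

open Filter Topology

namespace Pool.Agent.Results.MP_9fe581_an.CompactGroupExtensions

/-- `T : X → X` is an extension of `S : Y → Y`, or of a subsystem of it, by the group `G`, with the projection `p : X → Y`:
`G` acts freely on `X`, `T` commutes with `G`, the fibres of `p` over its image are the orbits of `G`, and `p ∘ T = S ∘ p`. -/
structure IsGroupExtension (G : Type) {X Y : Type} [Group G] [TopologicalSpace X] [TopologicalSpace Y] [MulAction G X]
    (S : Y → Y) (T : X → X) (p : X → Y) : Prop where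
  continuous_map : Continuous T
  continuous_proj : Continuous p
  free : ∀ (g : G) (x : X), g • x = x → g = 1
  commutes : ∀ (g : G) (x : X), T (g • x) = g • T x
  semiconj : ∀ x, p (T x) = S (p x)
  fibres : ∀ x x' : X, p x = p x' ↔ ∃ g : G, x' = g • x

/-- The Moebius averages of all factors of all compact group extensions of `(Y, S)` and of its closed subsystems, in particular
of all skew products over `(Y, S)` with a compact group (written out for arbitrary groups and for tori), tend to `0`,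
uniformly for the points that lie over a point of `Z`. -/
def ExtensionsDisjoint {Y : Type} [TopologicalSpace Y] (S : Y → Y) (Z : Set Y) : Prop :=
  (∀ (G X : Type) [Group G] [TopologicalSpace G] [IsTopologicalGroup G] [CompactSpace G] [T2Space G] [TopologicalSpace X]
    [CompactSpace X] [T2Space X] [MulAction G X] [ContinuousSMul G X] (T : X → X) (p : X → Y), IsGroupExtension G S T p →
    ∀ (X' : Type) [TopologicalSpace X'] (T' : X' → X') (r : X → X'), Continuous r → (∀ x, r (T x) = T' (r x)) →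
    ∀ f : C(X', ℂ), TendstoUniformlyOn (fun (N : ℕ) (x : X) => (1 / (N : ℂ)) * ∑ k ∈ Finset.Icc 1 N,
      f (T'^[k] (r x)) * ((ArithmeticFunction.moebius k : ℤ) : ℂ)) (fun _ => 0) atTop (p ⁻¹' Z)) ∧
  (∀ (G : Type) [Group G] [TopologicalSpace G] [IsTopologicalGroup G] [CompactSpace G] [T2Space G] (φ : Y → G),
    Continuous φ → ∀ (T : Y × G → Y × G), T = (fun z => (S z.1, φ z.1 * z.2)) →
    ∀ f : C(Y × G, ℂ), TendstoUniformlyOn (fun (N : ℕ) (z : Y × G) => (1 / (N : ℂ)) * ∑ k ∈ Finset.Icc 1 N,
      f (T^[k] z) * ((ArithmeticFunction.moebius k : ℤ) : ℂ)) (fun _ => 0) atTop (Prod.fst ⁻¹' Z)) ∧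
  (∀ (m : ℕ) (φ : Y → UnitAddTorus (Fin m)), Continuous φ →
    ∀ (T : Y × UnitAddTorus (Fin m) → Y × UnitAddTorus (Fin m)), T = (fun z => (S z.1, z.2 + φ z.1)) →
    ∀ f : C(Y × UnitAddTorus (Fin m), ℂ), TendstoUniformlyOn (fun (N : ℕ) (z : Y × UnitAddTorus (Fin m)) =>
      (1 / (N : ℂ)) * ∑ k ∈ Finset.Icc 1 N, f (T^[k] z) * ((ArithmeticFunction.moebius k : ℤ) : ℂ))
      (fun _ => 0) atTop (Prod.fst ⁻¹' Z))

open Pool.Agent.Lib.MP_9fe581_an Pool.Agent.Lib.MP_9fe581_an.HD Pool.Agent.Lib.MP_9fe581_an.HX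

/-- the sequence of the Moebius function -/
private noncomputable def mo (n : ℕ) : ℂ := ((ArithmeticFunction.moebius n : ℤ) : ℂ)

private theorem mo_bmult : BMult mo := moeb_bmult

private theorem mo_short (w : ℂ) (q : ℕ) (hq : 0 < q) (hw : w ^ q = 1) : ShortOrth mo w := mu_short w q hq hw

private theorem unif_of {X : Type} {F : ℕ → X → ℂ} {Z : Set X}
    (h : ∀ ε : ℝ, 0 < ε → ∃ N0 : ℕ, ∀ N ≥ N0, ∀ z ∈ Z, ‖∑ n ∈ Finset.Icc 1 N, mo n * F n z‖ ≤ ε * N) :
    TendstoUniformlyOn (fun (N : ℕ) (z : X) => (1 / (N : ℂ)) * ∑ k ∈ Finset.Icc 1 N,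
      F k z * ((ArithmeticFunction.moebius k : ℤ) : ℂ)) (fun _ => 0) atTop Z := by
  rw [Metric.tendstoUniformlyOn_iff]
  intro ε hε
  obtain ⟨N0, hN0⟩ := h (ε / 2) (by positivity)
  filter_upwards [eventually_ge_atTop (max N0 1)] with N hN z hz
  have hN1 : N0 ≤ N := (le_max_left _ _).trans hN
  have hNp : (0 : ℝ) < N := by exact_mod_cast (le_max_right _ _).trans hN
  rw [dist_zero_left, norm_mul, norm_div, norm_one, Complex.norm_natCast]
  have e : ∑ k ∈ Finset.Icc 1 N, F k z * ((ArithmeticFunction.moebius k : ℤ) : ℂ) =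
      ∑ k ∈ Finset.Icc 1 N, mo k * F k z :=
    Finset.sum_congr rfl fun k _ => mul_comm _ _
  rw [e]
  calc 1 / (N : ℝ) * ‖∑ k ∈ Finset.Icc 1 N, mo k * F k z‖
      ≤ 1 / (N : ℝ) * (ε / 2 * N) := mul_le_mul_of_nonneg_left (hN0 N hN1 z hz) (by positivity)
    _ = ε / 2 := by field_simp
    _ < ε := by linarith

private theorem semi {X X' : Type} {T : X → X} {T' : X' → X'} {r : X → X'} (h : ∀ x, r (T x) = T' (r x)) (n : ℕ) (x : X) :
    r (T^[n] x) = T'^[n] (r x) := by
  induction n generalizing x with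
  | zero => rfl
  | succ n ih => rw [Function.iterate_succ_apply, ih, h, Function.iterate_succ_apply]

private theorem mF_ec {D : ℕ} (c : Fin D → ℤ) (b : UnitAddTorus (Fin D)) :
    UnitAddTorus.mFourier c b = FT.ec (∑ i, c i • b i) := by
  have h : ∀ s : Finset (Fin D), FT.ec (∑ i ∈ s, c i • b i) = ∏ i ∈ s, (fourier (c i) (b i) : ℂ) := by
    intro s
    classical
    induction s using Finset.induction_on with
    | empty => simp [FT.ec_zero]
    | insert a s ha ih =>
      rw [Finset.sum_insert ha, Finset.prod_insert ha, FT.ec_add, ih, fourier_apply]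
      rfl
  rw [h]
  rfl

private theorem coc_mono {Y : Type} [TopologicalSpace Y] {S : Y → Y} {Z Z' : Set Y} (h : CocOrthY S mo Z) (hZ : Z' ⊆ Z) :
    CocOrthY S mo Z' := by
  intro m A hA hAA f ε hε
  obtain ⟨N0, hN0⟩ := h m A hA hAA f ε hε
  exact ⟨N0, fun N hN x hx => hN0 N hN x (hZ hx)⟩

private theorem coc_univ {Y : Type} [TopologicalSpace Y] {S : Y → Y} (h : CocOrthY S mo Set.univ)
    (S0 : ↥(Set.univ : Set Y) → ↥(Set.univ : Set Y)) (hS0 : ∀ y, (S0 y : Y) = S y) : CocOrthY S0 mo Set.univ := by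
  intro m A hA hAA f ε hε
  have hj : Continuous fun y : Y => (⟨y, trivial⟩ : ↥(Set.univ : Set Y)) := continuous_id.subtype_mk _
  obtain ⟨N0, hN0⟩ := h m (fun y => A ⟨y, trivial⟩) (hA.comp hj) (fun y => hAA _) (f.comp ⟨_, hj⟩) ε hε
  refine ⟨N0, fun N hN x _ i j => ?_⟩
  have hit : ∀ (n : ℕ) (y : ↥(Set.univ : Set Y)), S0^[n] y = ⟨S^[n] (y : Y), trivial⟩ := by
    intro n
    induction n with
    | zero => intro y; rfl
    | succ n ih =>
      intro y
      rw [Function.iterate_succ_apply, Function.iterate_succ_apply, ih, hS0]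
  have hcp : ∀ n : ℕ, cpS S0 A n x = cpS S (fun y => A ⟨y, trivial⟩) n (x : Y) := by
    intro n
    induction n with
    | zero => rfl
    | succ n ih => rw [cpS, cpS, ih, hit]
  have h1 := hN0 N hN x trivial i j
  have h2 : ∑ n ∈ Finset.Icc 1 N, mo n * (f (S0^[n] x) * cpS S0 A n x i j) =
      ∑ n ∈ Finset.Icc 1 N, mo n * ((f.comp ⟨_, hj⟩) (S^[n] (x : Y)) * cpS S (fun y => A ⟨y, trivial⟩) n (x : Y) i j) := by
    refine Finset.sum_congr rfl fun n _ => ?_
    rw [hcp, hit]
    rfl
  rwa [h2]

private theorem disjoint_of {Y : Type} [TopologicalSpace Y] [CompactSpace Y] [T2Space Y] {S : Y → Y} (hS : Continuous S)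
    {Z : Set Y} (hc : CocOrthY S mo Z)
    (hsub : ∀ Y0 : Set Y, IsClosed Y0 → Y0.Nonempty → ∀ S0 : Y0 → Y0, (∀ y, (S0 y : Y) = S y) →
      CocOrthY S0 mo (Subtype.val ⁻¹' Z)) : ExtensionsDisjoint S Z := by
  refine ⟨?_, ?_, ?_⟩
  · intro G X _ _ _ _ _ _ _ _ _ _ T p hE X' _ T' r hr hrT f
    refine unif_of (F := fun n x => f (T'^[n] (r x))) fun ε hε => ?_
    rcases isEmpty_or_nonempty X with hX | hX
    · exact ⟨0, fun N _ x _ => (hX.false x).elim⟩
    set Y0 : Set Y := Set.range p with hY0
    have hcl : IsClosed Y0 := (isCompact_range hE.continuous_proj).isClosed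
    have hmap : ∀ y : Y0, S y ∈ Y0 := by
      rintro ⟨y, x, rfl⟩
      exact ⟨T x, hE.semiconj x⟩
    have hfree' : CompactSpace Y0 := isCompact_iff_compactSpace.1 hcl.isCompact
    obtain ⟨N0, hN0⟩ := bundle_ext (Y := Y0) (S := fun y => ⟨S y, hmap y⟩) (p := fun x => ⟨p x, x, rfl⟩)
      (hsub Y0 hcl (Set.range_nonempty p) (fun y => ⟨S y, hmap y⟩) fun y => rfl)
      ((hS.comp continuous_subtype_val).subtype_mk _) mo_bmult.le_one hE.free hE.continuous_map hE.commutes
      (hE.continuous_proj.subtype_mk _) (by rintro ⟨y, x, rfl⟩; exact ⟨x, rfl⟩)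
      (fun x => Subtype.ext (hE.semiconj x)) (fun x x' h => (hE.fibres x x').1 (congrArg Subtype.val h))
      (fun g x => Subtype.ext ((hE.fibres x (g • x)).2 ⟨g, rfl⟩).symm)
      (f.comp ⟨r, hr⟩) ε hε
    refine ⟨N0, fun N hN x hx => ?_⟩
    have h1 := hN0 N hN x hx
    have h2 : ∑ n ∈ Finset.Icc 1 N, mo n * (f.comp ⟨r, hr⟩) (T^[n] x) =
        ∑ n ∈ Finset.Icc 1 N, mo n * f (T'^[n] (r x)) := by
      refine Finset.sum_congr rfl fun n _ => ?_
      rw [← semi hrT]
      rfl
    rwa [h2] at h1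
  · intro G _ _ _ _ _ φ hφ T hT f
    subst hT
    exact unif_of (F := fun n z => f ((fun z : Y × G => (S z.1, φ z.1 * z.2))^[n] z)) (ext_orth hc mo_bmult.le_one hφ f)
  · intro m φ hφ T hT f
    have hφ' : Continuous (Multiplicative.ofAdd ∘ φ : Y → Multiplicative (UnitAddTorus (Fin m))) :=
      continuous_ofAdd.comp hφ
    have h := ext_orth (G := Multiplicative (UnitAddTorus (Fin m))) hc mo_bmult.le_one hφ' f
    have e : (fun z => (S z.1, Multiplicative.ofAdd (φ z.1) * z.2) :
        Y × Multiplicative (UnitAddTorus (Fin m)) → Y × Multiplicative (UnitAddTorus (Fin m))) = T := by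
      rw [hT]
      funext z
      exact Prod.ext rfl (add_comm (φ z.1) z.2)
    have h' : OrthOn T f mo (Prod.fst ⁻¹' Z) := by
      rw [← e]
      exact h
    exact unif_of (F := fun n z => f (T^[n] z)) h'

/-- the uniquely ergodic case -/
private theorem disjoint_ue {Y : Type} [TopologicalSpace Y] [CompactSpace Y] [T2Space Y] [MeasurableSpace Y] [BorelSpace Y]
    {S : Y → Y} (hS : Continuous S) (hc : CocOrthY S mo Set.univ) {ν : MeasureTheory.Measure Y}
    [MeasureTheory.IsFiniteMeasure ν] [ν.IsOpenPosMeasure] (hE : UE S ν) : ExtensionsDisjoint S Set.univ := by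
  refine disjoint_of hS hc fun Y0 hcl hne S0 hS0 => ?_
  obtain ⟨y, hy⟩ := hne
  have hit : ∀ n, S^[n] y ∈ Y0 := by
    intro n
    induction n with
    | zero => exact hy
    | succ n ih =>
      rw [Function.iterate_succ_apply', ← hS0 ⟨_, ih⟩]
      exact (S0 _).2
  have h1 : Y0 = Set.univ := ue_min hE hcl y 0 fun n _ => hit n
  subst h1
  rw [Set.preimage_univ]
  exact coc_univ hc S0 hS0

/-- (A) Let `B` be an integer matrix all of whose complex eigenvalues have absolute value at most `1` and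
`S x = B x + b` on the torus `T^D` (every affine map of `T^D` of zero entropy; `B = 1` gives every rotation).
Then every compact group extension of `S` or of a closed subsystem of `S`, product or not, and every factor of such
an extension, is Moebius disjoint, at every point; the convergence is uniform over each fibre.
(B) If moreover `B - 1` is nilpotent and no nonzero integer vector `c` satisfies `c B = c` and `c · b = 0` mod `1`
(ergodic unipotent affine maps; for `B = 1`: the multiples of `b` are dense in `T^D`), the convergence is uniform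
on the whole extension.
(C) The same, uniformly, over the finite towers of Furstenberg: `X = (ℝ/ℤ)^κ`, `κ` finite with a level function `lev`, and
`S x i = x i + ∑_l a i l • x l + ψ i x`, where the integers `a i l` vanish unless `l` has lower level than `i`,
the real function `ψ i` is continuous, depends on the coordinates of lower level only and is Lipschitz in every
coordinate of level `lev i - 1`, for every `j` the rows `(a i l)_{lev l = j}` of the coordinates `i` of level
`j + 1` are independent over `ℤ`, and the constants `ψ i`, `lev i = 0`, are independent over `ℚ` together with `1`. -/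
theorem result :
    (∀ (D : ℕ) (B : Matrix (Fin D) (Fin D) ℤ) (b : UnitAddTorus (Fin D)),
      (∀ z : ℂ, (B.map (Int.cast : ℤ → ℂ)).charpoly.IsRoot z → ‖z‖ ≤ 1) →
      ∀ S : UnitAddTorus (Fin D) → UnitAddTorus (Fin D), (∀ x i, S x i = ∑ j, B i j • x j + b i) →
      ∀ x, ExtensionsDisjoint S {x}) ∧
    (∀ (D : ℕ) (B : Matrix (Fin D) (Fin D) ℤ) (b : UnitAddTorus (Fin D)), IsNilpotent (B - 1) →
      (∀ c : Fin D → ℤ, c ≠ 0 → Matrix.vecMul c B = c → ∑ i, c i • b i ≠ 0) →
      ∀ S : UnitAddTorus (Fin D) → UnitAddTorus (Fin D), (∀ x i, S x i = ∑ j, B i j • x j + b i) →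
      ExtensionsDisjoint S Set.univ) ∧
    (∀ (κ : Type) [Fintype κ] (lev : κ → ℕ) (a : κ → (κ →₀ ℤ)) (ψ : κ → (κ → UnitAddCircle) → ℝ),
      (∀ i l, a i l ≠ 0 → lev l < lev i) →
      (∀ i x y, (∀ l, lev l < lev i → x l = y l) → ψ i x = ψ i y) →
      (∀ i, Continuous (ψ i)) →
      (∀ i l, lev l + 1 = lev i → ∃ L : ℝ, ∀ (x y : κ → UnitAddCircle) (s : ℝ),
        (∀ k, k ≠ l → y k = x k) → y l = x l + (s : UnitAddCircle) → |ψ i y - ψ i x| ≤ L * |s|) →
      (∀ m : κ →₀ ℤ, m ≠ 0 → (∀ i, m i ≠ 0 → lev i = 0) → ∀ k : ℤ, (m.sum fun i c => (c : ℝ) * ψ i 0) ≠ k) →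
      (∀ j : ℕ, ∀ m : κ →₀ ℤ, m ≠ 0 → (∀ i, m i ≠ 0 → lev i = j + 1) →
        ∃ l, lev l = j ∧ (m.sum fun i c => c * a i l) ≠ 0) →
      ∀ S : (κ → UnitAddCircle) → (κ → UnitAddCircle),
      (∀ x i, S x i = x i + ((a i).sum fun l k => k • x l) + (ψ i x : UnitAddCircle)) →
      ExtensionsDisjoint S Set.univ) := by
  refine ⟨?_, ?_, ?_⟩
  · intro D B b hB S hS x
    have e : aff B b = S := by
      funext x i
      rw [hS]
      rfl
    rw [← e]
    refine disjoint_of ((act_cont B).add continuous_const) (affine_coc B hB b mo_bmult mo_short x) ?_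
    intro Y0 hcl _ S0 hS0
    by_cases hx : x ∈ Y0
    · refine coc_mono (affine_coc_sub B hB b mo_bmult mo_short hcl S0 hS0 ⟨x, hx⟩) ?_
      intro y hy
      exact Subtype.ext hy
    · intro m A _ _ f ε hε
      exact ⟨0, fun N _ y hy => (hx (by rw [← show (y : UnitAddTorus (Fin D)) = x from hy]; exact y.2)).elim⟩
  · intro D B b hN hirr S hS
    have e : uS (B - 1) b = S := by
      funext x i
      rw [hS]
      simp only [uS, act, Pi.add_apply, Matrix.sub_apply, sub_smul, Finset.sum_sub_distrib, Matrix.one_apply, ite_smul,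
        one_smul, zero_smul, Finset.sum_ite_eq, Finset.mem_univ, if_true]
      abel
    have hirr' : ∀ c : Fin D → ℤ, c ≠ 0 → ad (B - 1) c = 0 → UnitAddTorus.mFourier c b ≠ 1 := by
      intro c hc h1 h2
      refine hirr c hc ?_ ?_
      · rw [ad, Matrix.vecMul_sub, Matrix.vecMul_one] at h1
        exact sub_eq_zero.1 h1
      · exact FT.ec_eq_one ((mF_ec c b).symm.trans h2)
    rw [← e]
    exact disjoint_ue uS_cont (uni_coc hN hirr' mo_bmult mo_short) (uS_ue hN hirr')
  · intro κ _ lev a ψ hsup hdep hcont hlip hbase hdeg S hS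
    classical
    let W : FT.Tower κ :=
      { lev := lev
        a := a
        ψ := ψ
        sup := hsup
        dep := hdep
        cont := hcont
        lip := hlip
        base := hbase
        deg := hdeg }
    have e : FT.T W = S := by
      funext x i
      rw [hS]
      show x i + FT.phi W i x = _
      unfold FT.phi FT.pr
      rw [← add_assoc]
    rw [← e]
    obtain ⟨g⟩ := HT.tower_good W
    exact disjoint_ue g.cont (tower_coc W mo_bmult mo_short) (tower_ue W)

end Pool.Agent.Results.MP_9fe581_an.CompactGroupExtensions
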