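import Pool.Agent.Lib.MP_9fe581_an.HT.Final
import Pool.Agent.Lib.MP_9fe581_an.HT.Torus
import Pool.Agent.Lib.MP_9fe581_an.HT.Base
import Pool.Agent.Lib.MP_9fe581_an.HD.Moeb

/-! Every ergodic skew product with a CONTINUOUS cocycle over a finite tower of Furstenberg (of any height, in particular
over a rotation of a torus), with torus fibres or with compact connected (linear) group fibres, is disjoint from every
bounded multiplicative function, in particular from the Moebius function; uniformly in the point. -/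

open MeasureTheory Filter Topology

namespace Pool.Agent.Results.MP_9fe581_an.TowerSkewProducts

open Pool.Agent.Lib.MP_9fe581_an.HD in
private theorem unif_of_unifOrth {X : Type} {T : X → X} {f : X → ℂ} (h : UnifOrth T f) (u : ℕ → ℂ) (hu : BMult u) :
    TendstoUniformly (fun (N : ℕ) (z : X) => (1 / (N : ℂ)) * ∑ k ∈ Finset.Icc 1 N, u k * f (T^[k] z)) (fun _ => 0) atTop := by
  rw [Metric.tendstoUniformly_iff]
  intro ε hε
  obtain ⟨N0, hN0⟩ := h u hu (ε / 2) (by positivity)
  filter_upwards [eventually_ge_atTop (max N0 1)] with N hN z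
  have hN1 : N0 ≤ N := (le_max_left _ _).trans hN
  have hNp : (0 : ℝ) < N := by exact_mod_cast (le_max_right _ _).trans hN
  rw [dist_zero_left, norm_mul, norm_div, norm_one, Complex.norm_natCast]
  calc 1 / (N : ℝ) * ‖∑ k ∈ Finset.Icc 1 N, u k * f (T^[k] z)‖ ≤ 1 / (N : ℝ) * (ε / 2 * N) :=
        mul_le_mul_of_nonneg_left (hN0 N hN1 z) (by positivity)
    _ = ε / 2 := by field_simp
    _ < ε := by linarith

open Pool.Agent.Lib.MP_9fe581_an.HD in
private theorem unif_moeb {X : Type} [TopologicalSpace X] [CompactSpace X] {T : X → X} (f : C(X, ℂ)) (c : ℂ)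
    (h : UnifOrth T fun z => f z - c) :
    TendstoUniformly (fun (N : ℕ) (z : X) => (1 / (N : ℂ)) * ∑ k ∈ Finset.Icc 1 N,
      f (T^[k] z) * ((ArithmeticFunction.moebius k : ℤ) : ℂ)) (fun _ => 0) atTop := by
  rw [Metric.tendstoUniformly_iff]
  intro ε hε
  obtain ⟨N0, hN0⟩ := moeb_unif T f c h (ε / 2) (by positivity)
  filter_upwards [eventually_ge_atTop (max N0 1)] with N hN z
  have hN1 : N0 ≤ N := (le_max_left _ _).trans hN
  have hNp : (0 : ℝ) < N := by exact_mod_cast (le_max_right _ _).trans hN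
  rw [dist_zero_left, norm_mul, norm_div, norm_one, Complex.norm_natCast]
  calc 1 / (N : ℝ) * ‖∑ k ∈ Finset.Icc 1 N, f (T^[k] z) * ((ArithmeticFunction.moebius k : ℤ) : ℂ)‖
      ≤ 1 / (N : ℝ) * (ε / 2 * N) := mul_le_mul_of_nonneg_left (hN0 N hN1 z) (by positivity)
    _ = ε / 2 := by field_simp
    _ < ε := by linarith

/-- The base: `X = (ℝ/ℤ)^κ`, `κ` finite with a level function `lev`, and
`S x i = x i + ∑_l a i l • x l + ψ i x`, where the integers `a i l` vanish unless `l` has lower level than `i`,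
the real function `ψ i` is continuous, depends on the coordinates of lower level only and is Lipschitz in every
coordinate of level `lev i - 1`, and for every `j` the rows `(a i l)_{lev l = j}` of the coordinates `i` of level
`j + 1` are independent over `ℤ` (if all levels are `0`, this says just that `S` is a rotation).
(A) Torus fibres: `T (x, y) = (S x, y + φ x)` on `X × T^m`, `φ` continuous, `T` ergodic for Haar measure.
(B) `G` a compact connected group with a faithful continuous finite dimensional unitary representation `ρ`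
(a compact connected Lie group), `T (x, y) = (S x, φ x * y)` on `X × G`, `φ` continuous, `T` ergodic for Haar
measure.  In both cases, for every continuous `f`: the averages of `u(k) (f (T^k z) - ∫ f)` tend to `0` uniformly in
`z` for EVERY multiplicative `u` bounded by one, and the averages of `f (T^k z) μ(k)` tend to `0` uniformly in `z`. -/
theorem result
    (κ : Type) [Fintype κ] (lev : κ → ℕ) (a : κ → (κ →₀ ℤ)) (ψ : κ → (κ → UnitAddCircle) → ℝ)
    (hsup : ∀ i l, a i l ≠ 0 → lev l < lev i)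
    (hdep : ∀ i x y, (∀ l, lev l < lev i → x l = y l) → ψ i x = ψ i y)
    (hcont : ∀ i, Continuous (ψ i))
    (hlip : ∀ i l, lev l + 1 = lev i → ∃ L : ℝ, ∀ (x y : κ → UnitAddCircle) (s : ℝ),
      (∀ k, k ≠ l → y k = x k) → y l = x l + (s : UnitAddCircle) → |ψ i y - ψ i x| ≤ L * |s|)
    (hdeg : ∀ j : ℕ, ∀ m : κ →₀ ℤ, m ≠ 0 → (∀ i, m i ≠ 0 → lev i = j + 1) →
      ∃ l, lev l = j ∧ (m.sum fun i c => c * a i l) ≠ 0)
    (S : (κ → UnitAddCircle) → (κ → UnitAddCircle))
    (hS : ∀ x i, S x i = x i + ((a i).sum fun l k => k • x l) + (ψ i x : UnitAddCircle)) :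
    (∀ (m : ℕ) (φ : (κ → UnitAddCircle) → UnitAddTorus (Fin m)), Continuous φ →
      ∀ (T : (κ → UnitAddCircle) × UnitAddTorus (Fin m) → (κ → UnitAddCircle) × UnitAddTorus (Fin m)),
      T = (fun z => (S z.1, z.2 + φ z.1)) →
      ∀ ν : Measure ((κ → UnitAddCircle) × UnitAddTorus (Fin m)),
      ν = (Measure.pi fun _ : κ => (AddCircle.haarAddCircle : Measure UnitAddCircle)).prod
        (Measure.pi fun _ : Fin m => (AddCircle.haarAddCircle : Measure UnitAddCircle)) →
      Ergodic T ν → ∀ f : C((κ → UnitAddCircle) × UnitAddTorus (Fin m), ℂ),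
      (∀ u : ℕ → ℂ, (∀ n, ‖u n‖ ≤ 1) → (∀ m n, Nat.Coprime m n → u (m * n) = u m * u n) →
        TendstoUniformly (fun (N : ℕ) z => (1 / (N : ℂ)) * ∑ k ∈ Finset.Icc 1 N, u k * (f (T^[k] z) - ∫ w, f w ∂ν))
          (fun _ => 0) atTop) ∧
      TendstoUniformly (fun (N : ℕ) z => (1 / (N : ℂ)) * ∑ k ∈ Finset.Icc 1 N,
        f (T^[k] z) * ((ArithmeticFunction.moebius k : ℤ) : ℂ)) (fun _ => 0) atTop) ∧
    (∀ (G : Type) [Group G] [TopologicalSpace G] [IsTopologicalGroup G] [CompactSpace G] [ConnectedSpace G]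
      [MeasurableSpace G] [BorelSpace G] (μ : Measure G) [μ.IsHaarMeasure] [IsProbabilityMeasure μ]
      (n : ℕ) (ρ : G →* Matrix.unitaryGroup (Fin n) ℂ), Continuous ρ → Function.Injective ρ →
      ∀ (φ : (κ → UnitAddCircle) → G), Continuous φ →
      ∀ (T : (κ → UnitAddCircle) × G → (κ → UnitAddCircle) × G), T = (fun z => (S z.1, φ z.1 * z.2)) →
      ∀ ν : Measure ((κ → UnitAddCircle) × G),
      ν = (Measure.pi fun _ : κ => (AddCircle.haarAddCircle : Measure UnitAddCircle)).prod μ →
      Ergodic T ν → ∀ f : C((κ → UnitAddCircle) × G, ℂ),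
      (∀ u : ℕ → ℂ, (∀ n, ‖u n‖ ≤ 1) → (∀ m n, Nat.Coprime m n → u (m * n) = u m * u n) →
        TendstoUniformly (fun (N : ℕ) z => (1 / (N : ℂ)) * ∑ k ∈ Finset.Icc 1 N, u k * (f (T^[k] z) - ∫ w, f w ∂ν))
          (fun _ => 0) atTop) ∧
      TendstoUniformly (fun (N : ℕ) z => (1 / (N : ℂ)) * ∑ k ∈ Finset.Icc 1 N,
        f (T^[k] z) * ((ArithmeticFunction.moebius k : ℤ) : ℂ)) (fun _ => 0) atTop) := by
  classical
  constructor
  · intro m φ hφ T hT ν hν hE f
    subst hT
    subst hν
    obtain ⟨W, rfl⟩ := Pool.Agent.Lib.MP_9fe581_an.HT.tower_of_erg lev a ψ hsup hdep hcont hlip hdeg hS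
      (ν := Pool.Agent.Lib.MP_9fe581_an.HT.mX (Fin m)) (fun _ => rfl) hE
    have h' := Pool.Agent.Lib.MP_9fe581_an.HT.unifOrth_torus W (m := m) hφ hE f
    exact ⟨fun u hu1 hu2 => unif_of_unifOrth h' u ⟨hu1, hu2⟩, unif_moeb f _ h'⟩
  · intro G _ _ _ _ _ _ _ μ _ _ n ρ hρ hinj φ hφ T hT ν hν hE f
    subst hT
    subst hν
    have : T2Space G := T2Space.of_injective_continuous hinj hρ
    have : SecondCountableTopology (Matrix (Fin n) (Fin n) ℂ) :=
      inferInstanceAs (SecondCountableTopology (Fin n → Fin n → ℂ))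
    have : SecondCountableTopology (Matrix.unitaryGroup (Fin n) ℂ) := TopologicalSpace.Subtype.secondCountableTopology _
    have : SecondCountableTopology G :=
      (hρ.isClosedEmbedding hinj).isEmbedding.secondCountableTopology
    have hrep : Pool.Agent.Lib.MP_9fe581_an.HD.URep (fun g => ((ρ g : Matrix.unitaryGroup (Fin n) ℂ) : Matrix (Fin n) (Fin n) ℂ)) := by
      refine ⟨continuous_subtype_val.comp hρ, by simp, fun g h => by simp, fun g => ?_⟩
      exact (Matrix.mem_unitaryGroup_iff).1 (ρ g).2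
    obtain ⟨W, rfl⟩ := Pool.Agent.Lib.MP_9fe581_an.HT.tower_of_erg lev a ψ hsup hdep hcont hlip hdeg hS
      (ν := μ) (fun _ => rfl) hE
    have h' := Pool.Agent.Lib.MP_9fe581_an.HT.unifOrth_final (μ := μ) W hrep
      (fun a b hab => hinj (Subtype.ext hab)) hφ hE f
    exact ⟨fun u hu1 hu2 => unif_of_unifOrth h' u ⟨hu1, hu2⟩, unif_moeb f _ h'⟩

end Pool.Agent.Results.MP_9fe581_an.TowerSkewProducts
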