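import Pool.Agent.Lib.MP_9fe581_an.AV.Fin6
import Pool.Agent.Lib.MP_9fe581_an.AV.GenB
import Pool.Agent.Lib.MP_9fe581_an.AV.TwF
import Pool.Agent.Lib.MP_9fe581_an.AQ.Full

/-! Moebius disjointness, uniformly in the point, of the continuous maps all of whose ergodic measures (any number of them) are
factors of systems with an exhausting tower of abelian extensions without torsion (torsion is allowed in the last extension),
with an arbitrary measurable cocycle at every level. -/

open MeasureTheory Filter Topology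
open scoped ComplexConjugate

set_option warn.classDefReducibility false

namespace Pool.Agent.Results.MP_9fe581_an.TowersOfAllHeights

/-- the measurable functions `v` of modulus one for which `(v ∘ S) / v` is measurable for the σ-algebra `A` -/
def classes {Y : Type} [mY : MeasurableSpace Y] (S : Y → Y) (A : MeasurableSpace Y) : Set (Y → ℂ) :=
  {v | Measurable[mY] v ∧ (∀ y, ‖v y‖ = 1) ∧ Measurable[A] fun y => v (S y) * conj (v y)}

/-- the canonical tower of abelian extensions: `canon 0` is the σ-algebra of the null sets and their complements,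
`canon (h + 1)` consists of the measurable sets which agree up to a null set with a set in the σ-algebra generated by
`canon h` and by the functions in `classes S (canon h)` -/
noncomputable def canon {Y : Type} [mY : MeasurableSpace Y] (m : Measure Y) (S : Y → Y) : ℕ → MeasurableSpace Y
  | 0 => mY ⊓ @eventuallyMeasurableSpace Y ⊥ (ae m) _
  | h + 1 => mY ⊓ @eventuallyMeasurableSpace Y
      (canon m S h ⊔ ⨆ v : classes S (canon m S h), MeasurableSpace.comap v.1 inferInstance) (ae m) _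

/-- the class `D`: probability preserving, ergodic, invertible systems; `tor`: for every `h` the extension `canon (h + 1)` of
`canon h` has no torsion, or `h ≥ 1` and `canon (h + 1)` consists of all measurable sets (it is the last extension);
`gen`: the canonical tower generates the σ-algebra up to null sets -/
structure InD {Y : Type} [mY : MeasurableSpace Y] (m : Measure Y) (S : Y → Y) : Prop where
  prob : IsProbabilityMeasure m
  erg : Ergodic S m
  inv : ∃ S' : Y → Y, Measurable S' ∧ (∀ y, S (S' y) = y) ∧ ∀ y, S' (S y) = y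
  tor : ∀ h, (∀ v ∈ classes S (canon m S h), ∀ n : ℕ, 0 < n → (Measurable[canon m S h] fun y => v y ^ n) →
    Measurable[canon m S h] v) ∨ (0 < h ∧ canon m S (h + 1) = mY)
  gen : mY ≤ @eventuallyMeasurableSpace Y (⨆ h, canon m S h) (ae m) _

/-- `c` is an eigenvalue of `S` -/
def Eigenvalue {Y : Type} [MeasurableSpace Y] (m : Measure Y) (S : Y → Y) (c : ℂ) : Prop :=
  ∃ v : Y → ℂ, Measurable v ∧ (∀ y, ‖v y‖ = 1) ∧ ∀ᵐ y ∂m, v (S y) = c * v y

/-- the condition on the eigenvalues of a family of systems: either for every eigenvalue `c ≠ 1` of a member there are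
only finitely many primes `q` with `c = (a b)^q`, `a`, `b` eigenvalues of members; or the family is countable and for all
members `S i`, `S k` and every eigenvalue `c ≠ 1` of `S i` there are only finitely many primes `q` with `c = (a b)^q`,
`a` an eigenvalue of `S i`, `b` an eigenvalue of `S k` -/
def Cond {ι : Type} {Y : ι → Type} [∀ i, MeasurableSpace (Y i)] (m : ∀ i, Measure (Y i)) (S : ∀ i, Y i → Y i) : Prop :=
  (∀ i c, Eigenvalue (m i) (S i) c → c ≠ 1 → {q : ℕ | q.Prime ∧ ∃ j k a b,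
    Eigenvalue (m j) (S j) a ∧ Eigenvalue (m k) (S k) b ∧ c = (a * b) ^ q}.Finite) ∨
  (Countable ι ∧ ∀ i k c, Eigenvalue (m i) (S i) c → c ≠ 1 → {q : ℕ | q.Prime ∧ ∃ a b,
    Eigenvalue (m i) (S i) a ∧ Eigenvalue (m k) (S k) b ∧ c = (a * b) ^ q}.Finite)

/-- `X = (ℝ/ℤ)^κ`, every `i` in `κ` has a level, there are finitely many `i` of each level (`κ` may be infinite), `ν` is the
Haar measure, `T x i = x i + ψ i x`, `ψ i` an ARBITRARY measurable function with values in `ℝ/ℤ` of the coordinates of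
lower levels. `base`: the constants `ψ i` of level `0` and `1` are independent over `ℚ`.
`nd`: for every nonzero integer vector `m` on the level `j + 1` the function `e(∑ m_i ψ i)` is not of the form
`F · g ∘ T / g` (almost everywhere) with `g`, `F` measurable, unimodular, `g` a function of the coordinates of level
`≤ j` and `F` a function of the coordinates of level `< j`. -/
structure IsTower {κ : Type} (lev : κ → ℕ) (ψ : κ → (κ → UnitAddCircle) → UnitAddCircle)
    (ν : Measure (κ → UnitAddCircle)) (T : (κ → UnitAddCircle) → (κ → UnitAddCircle)) : Prop where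
  fin : ∀ j, {i | lev i ≤ j}.Finite
  meas : ∀ i, Measurable (ψ i)
  dep : ∀ i x y, (∀ l, lev l < lev i → x l = y l) → ψ i x = ψ i y
  map : ∀ x i, T x i = x i + ψ i x
  haar : ν = Measure.infinitePi fun _ : κ => (AddCircle.haarAddCircle : Measure UnitAddCircle)
  base : ∀ m : κ →₀ ℤ, m ≠ 0 → (∀ i, m i ≠ 0 → lev i = 0) → (m.sum fun i c => c • ψ i 0) ≠ 0
  nd : ∀ (j : ℕ) (m : κ →₀ ℤ), m ≠ 0 → (∀ i, m i ≠ 0 → lev i = j + 1) →
    ¬ ∃ g F : (κ → UnitAddCircle) → ℂ, Measurable g ∧ Measurable F ∧ (∀ x, ‖g x‖ = 1) ∧ (∀ x, ‖F x‖ = 1) ∧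
      (∀ x y, (∀ i, lev i ≤ j → x i = y i) → g x = g y) ∧ (∀ x y, (∀ i, lev i < j → x i = y i) → F x = F y) ∧
      ∀ᵐ x ∂ν, (AddCircle.toCircle (m.sum fun i c => c • ψ i x) : ℂ) * g x = F x * g (T x)

/-- for every continuous `f` the averages of `f (R^k z) μ(k)` tend to `0` uniformly in `z`; and if `∫ f dρ = 0` for all
ergodic `R^r`-invariant probability measures `ρ`, the averages of `u(k) f (R^k z)` tend to `0` uniformly in `z` for every
multiplicative `u` bounded by one -/
def Disjoint {Z : Type} [TopologicalSpace Z] [MeasurableSpace Z] (R : Z → Z) (r : ℕ) : Prop :=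
  ∀ f : C(Z, ℂ),
    TendstoUniformly (fun (N : ℕ) z => (1 / (N : ℂ)) * ∑ k ∈ Finset.Icc 1 N,
      f (R^[k] z) * ((ArithmeticFunction.moebius k : ℤ) : ℂ)) (fun _ => 0) atTop ∧
    ((∀ ρ : Measure Z, IsProbabilityMeasure ρ → Ergodic R^[r] ρ → ∫ z, f z ∂ρ = 0) →
      ∀ u : ℕ → ℂ, (∀ n, ‖u n‖ ≤ 1) → (∀ m n, Nat.Coprime m n → u (m * n) = u m * u n) →
      TendstoUniformly (fun (N : ℕ) z => (1 / (N : ℂ)) * ∑ k ∈ Finset.Icc 1 N, u k * f (R^[k] z)) (fun _ => 0) atTop)

/-! ### the canonical tower is that of the library -/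

open Pool.Agent.Lib.MP_9fe581_an in
private theorem canon_eq {Y : Type} [mY : MeasurableSpace Y] (m : Measure Y) (S : Y → Y) (h : ℕ) :
    canon m S h = (AQ.FF m S h).m := by
  induction h with
  | zero => rfl
  | succ h ih =>
    have e : classes S (canon m S h) = {v | AP.Cls S (AQ.FF m S h) v} := by
      rw [ih]
      ext v
      exact ⟨fun ⟨a, b, c⟩ => ⟨a, b, c⟩, fun ⟨a, b, c⟩ => ⟨a, b, c⟩⟩
    show mY ⊓ @eventuallyMeasurableSpace Y
      (canon m S h ⊔ ⨆ v : classes S (canon m S h), MeasurableSpace.comap v.1 inferInstance) (ae m) _ =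
      mY ⊓ @eventuallyMeasurableSpace Y ((AQ.FF m S h).m ⊔
        ⨆ v : ({v | AP.Cls S (AQ.FF m S h) v} : Set (Y → ℂ)), MeasurableSpace.comap v.1 inferInstance) (ae m) _
    rw [e, ih]

open Pool.Agent.Lib.MP_9fe581_an in
private theorem nt_iff {Y : Type} [mY : MeasurableSpace Y] {m : Measure Y} {S : Y → Y} {j : ℕ} :
    (∀ v ∈ classes S (canon m S j), ∀ n : ℕ, 0 < n → (Measurable[canon m S j] fun y => v y ^ n) →
      Measurable[canon m S j] v) ↔ AQ.NT m S j := by
  rw [canon_eq]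
  exact ⟨fun h v n hn hv hp => h v ⟨hv.meas, hv.norm, hv.ratio⟩ n hn hp, fun h v hv n hn hp => h v n hn ⟨hv.1, hv.2.1, hv.2.2⟩ hp⟩

open Pool.Agent.Lib.MP_9fe581_an in
private theorem InD.dst {Y : Type} [mY : MeasurableSpace Y] {m : Measure Y} {S : Y → Y} (h : InD m S) : AQ.Dst m S := by
  have := h.prob
  refine ⟨h.erg, h.inv, nt_iff.1 ((h.tor 0).resolve_right fun h0 => absurd h0.1 (lt_irrefl 0)), fun j => ?_,
    fun f hf h0 => AV.dense_of_gen ?_ hf h0⟩
  · refine (h.tor j).imp nt_iff.1 fun h1 => AQ.full_of_eq ?_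
    rw [← canon_eq]
    exact h1.2
  · have h1 := h.gen
    simp only [canon_eq] at h1
    exact h1

open Pool.Agent.Lib.MP_9fe581_an in
private theorem ind_of_dst {Y : Type} [mY : MeasurableSpace Y] {m : Measure Y} {S : Y → Y} (hp : IsProbabilityMeasure m)
    (h : AQ.Dst m S) : InD m S := by
  refine ⟨hp, h.erg, h.inv, fun j => ?_, ?_⟩
  · rcases Nat.eq_zero_or_pos j with rfl | hj
    · exact Or.inl (nt_iff.2 h.tor0)
    · refine (h.tor j).imp nt_iff.2 fun h1 => ⟨hj, ?_⟩
      rw [canon_eq]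
      exact AQ.eq_of_full h1
  · simp only [canon_eq]
    exact AV.gen_of_dense h.dense

open Pool.Agent.Lib.MP_9fe581_an in
private theorem eig_iff {Y : Type} [MeasurableSpace Y] {m : Measure Y} {S : Y → Y} {c : ℂ} :
    Eigenvalue m S c ↔ AQ.Eig m S c :=
  ⟨fun ⟨v, a, b, d⟩ => ⟨v, a, b, d⟩, fun ⟨v, h⟩ => ⟨v, h.meas, h.norm, h.eq⟩⟩

open Pool.Agent.Lib.MP_9fe581_an.HD in
private theorem unif_of_unifOrth {X : Type} {T : X → X} {f : X → ℂ} (h : UnifOrth T f) (u : ℕ → ℂ) (hu : BMult u) :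
    TendstoUniformly (fun (N : ℕ) (z : X) => (1 / (N : ℂ)) * ∑ k ∈ Finset.Icc 1 N, u k * f (T^[k] z)) (fun _ => 0) atTop := by
  rw [Metric.tendstoUniformly_iff]
  intro ε hε
  obtain ⟨N0, hN0⟩ := h u hu (ε / 2) (by positivity)
  filter_upwards [eventually_ge_atTop (max N0 1)] with N hN z
  have hN1 : N0 ≤ N := (le_max_left _ _).trans hN
  have hNp : (0 : ℝ) < N := by exact_mod_cast (le_max_right _ _).trans hN
  rw [dist_zero_left, norm_mul, norm_div, norm_one, Complex.norm_natCast]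
  calc 1 / (N : ℝ) * ‖∑ k ∈ Finset.Icc 1 N, u k * f (T^[k] z)‖ ≤ 1 / (N : ℝ) * (ε / 2 * N) :=
        mul_le_mul_of_nonneg_left (hN0 N hN1 z) (by positivity)
    _ = ε / 2 := by field_simp
    _ < ε := by linarith

private theorem of_finite {P : ℕ → Prop} (h : {q : ℕ | q.Prime ∧ P q}.Finite) : ∃ q0 : ℕ, ∀ q ≥ q0, q.Prime → ¬ P q := by
  obtain ⟨b, hb⟩ := h.bddAbove
  exact ⟨b + 1, fun q hq hp hP => absurd (hb ⟨hp, hP⟩) (by omega)⟩

open Pool.Agent.Lib.MP_9fe581_an in
private theorem part_one {ι : Type} {Y : ι → Type} [∀ i, MeasurableSpace (Y i)] [∀ i, StandardBorelSpace (Y i)]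
    {m : ∀ i, Measure (Y i)} {S : ∀ i, Y i → Y i} (hD : ∀ i, InD (m i) (S i)) (hC : Cond m S)
    {Z : Type} [TopologicalSpace Z] [CompactSpace Z] [TopologicalSpace.MetrizableSpace Z] [MeasurableSpace Z]
    [BorelSpace Z] {R : Z → Z} (hRc : Continuous R) {r : ℕ} (hr : 0 < r)
    (hall : ∀ ρ : Measure Z, IsProbabilityMeasure ρ → Ergodic R^[r] ρ → ∃ (i : ι) (π : Y i → Z),
      MeasurePreserving π (m i) ρ ∧ ∀ᵐ y ∂(m i), π (S i y) = R^[r] (π y)) (g : C(Z, ℂ))
    (h0 : ∀ ρ : Measure Z, IsProbabilityMeasure ρ → Ergodic R^[r] ρ → ∫ z, g z ∂ρ = 0) : HD.UnifOrth R g := by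
  have hfac : ∀ a : Measure Z, IsProbabilityMeasure a → Ergodic R^[r] a → ∃ i, AU.IsFac (S i) (m i) R^[r] a :=
    fun a ha he => by
      obtain ⟨i, π, h1, h2⟩ := hall a ha he
      exact ⟨i, π, h1, h2⟩
  rcases hC with hC | ⟨hι, hC⟩
  · refine AV.fam_E hRc hr (fun i => (hD i).prob) (fun i => (hD i).dst) ?_ hfac g h0
    intro i c hc hc1
    obtain ⟨q0, hq0⟩ := of_finite (hC i c (eig_iff.2 hc) hc1)
    refine ⟨q0, fun q hq hp j a ha k b hb e => hq0 q hq hp ⟨j, k, a, b, eig_iff.2 ha, eig_iff.2 hb, e⟩⟩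
  · refine AU.dst_bm_r hRc m S (fun i => (hD i).prob) (fun i => (hD i).dst) ?_ hfac g h0
    intro i k c hc hc1
    obtain ⟨q0, hq0⟩ := of_finite (hC i k c (eig_iff.2 hc) hc1)
    exact ⟨q0, fun q hq hp a b ha hb e => hq0 q hq hp ⟨a, b, eig_iff.2 ha, eig_iff.2 hb, e⟩⟩

private theorem finite_of {P : ℕ → Prop} (h : ∃ q0 : ℕ, ∀ q ≥ q0, q.Prime → ¬ P q) : {q : ℕ | q.Prime ∧ P q}.Finite := by
  obtain ⟨q0, h⟩ := h
  refine (Set.finite_lt_nat q0).subset fun q hq => ?_
  by_contra hlt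
  exact h q (not_lt.1 hlt) hq.1 hq.2

/-- **Part 1.** Let `(Y i, m i, S i)` be a family of systems in the class `D` which satisfies `Cond`, let `R` be a continuous self-map of
the compact metrizable space `Z` and `r ≥ 1`, and let every ergodic `R^r`-invariant Borel probability measure `ρ` on `Z` be a
factor of a member of the family: `π : Y i → Z` measurable, `π` maps `m i` to `ρ`, `π ∘ S i = R^r ∘ π` almost everywhere. Then
`Disjoint R r`.
**Part 2.** Let `(κ i → ℝ/ℤ, ν i, T i)` be a family of towers, either countable or such that all constants `ψ i l` of level `0`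
lie in one finitely generated group. Then the `T i` are in the class `D` and the family satisfies `Cond`. -/
theorem result :
    (∀ (ι : Type) (Y : ι → Type) [∀ i, MeasurableSpace (Y i)] [∀ i, StandardBorelSpace (Y i)]
      (m : ∀ i, Measure (Y i)) (S : ∀ i, Y i → Y i), (∀ i, InD (m i) (S i)) → Cond m S →
      ∀ (Z : Type) [TopologicalSpace Z] [CompactSpace Z] [TopologicalSpace.MetrizableSpace Z] [MeasurableSpace Z]
        [BorelSpace Z] (R : Z → Z) (r : ℕ), Continuous R → 0 < r →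
        (∀ ρ : Measure Z, IsProbabilityMeasure ρ → Ergodic R^[r] ρ → ∃ (i : ι) (π : Y i → Z),
          MeasurePreserving π (m i) ρ ∧ ∀ᵐ y ∂(m i), π (S i y) = R^[r] (π y)) →
        Disjoint R r) ∧
    (∀ (ι : Type) (κ : ι → Type) (lev : ∀ i, κ i → ℕ) (ψ : ∀ i, κ i → (κ i → UnitAddCircle) → UnitAddCircle)
      (ν : ∀ i, Measure (κ i → UnitAddCircle)) (T : ∀ i, (κ i → UnitAddCircle) → (κ i → UnitAddCircle)),
      (∀ i, IsTower (lev i) (ψ i) (ν i) (T i)) →
      (Countable ι ∨ ∃ H : AddSubgroup UnitAddCircle, H.FG ∧ ∀ i l, lev i l = 0 → ψ i l 0 ∈ H) →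
      (∀ i, InD (ν i) (T i)) ∧ Cond ν T) := by
  refine ⟨fun ι Y _ _ m S hD hC Z _ _ _ _ _ R r hRc hr hall f => ?_, fun ι κ lev ψ ν T h hi => ?_⟩
  · have key := part_one hD hC hRc hr hall
    exact ⟨Pool.Agent.Lib.MP_9fe581_an.AU.mr_r hr hRc key f, fun h0 u hu1 hu2 => unif_of_unifOrth (key f h0) u ⟨hu1, hu2⟩⟩
  · have hI : ∀ i, Pool.Agent.Lib.MP_9fe581_an.AP.ITow (lev i) (ψ i) (ν i) (T i) := fun i =>
      ⟨(h i).fin, (h i).meas, (h i).dep, (h i).map, (h i).haar, (h i).base, (h i).nd⟩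
    refine ⟨fun i => ind_of_dst (hI i).prob (Pool.Agent.Lib.MP_9fe581_an.AQ.itow_dst (hI i)), ?_⟩
    rcases hi with hi | ⟨H, hfg, hH⟩
    · refine Or.inr ⟨hi, fun i k c hc hc1 => finite_of ?_⟩
      obtain ⟨q0, hq⟩ := Pool.Agent.Lib.MP_9fe581_an.AQ.itow_kr (hI i) (hI k) c (eig_iff.1 hc) hc1
      refine ⟨q0, fun q hq0 hp => ?_⟩
      rintro ⟨a, b, ha, hb, e⟩
      exact hq q hq0 hp a b (eig_iff.1 ha) (eig_iff.1 hb) e
    · refine Or.inl fun i c hc hc1 => finite_of ?_
      obtain ⟨q0, hq⟩ := Pool.Agent.Lib.MP_9fe581_an.AV.itow_fin hI hfg hH i (eig_iff.1 hc) hc1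
      refine ⟨q0, fun q hq0 _ => ?_⟩
      rintro ⟨j, k, a, b, ha, hb, e⟩
      exact hq q hq0 j k a b (eig_iff.1 ha) (eig_iff.1 hb) e

end Pool.Agent.Results.MP_9fe581_an.TowersOfAllHeights
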