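import Pool.Agent.Lib.MP_9fe581_an.TW.Final
import Pool.Agent.Lib.MP_9fe581_an.TW.TorusT
import Pool.Agent.Lib.MP_9fe581_an.TW.Mob
import Pool.Agent.Lib.MP_9fe581_an.HD.Moeb
import Pool.Agent.Lib.MRT.ShortMu
import Pool.Agent.Lib.DN.Exc

/-! Two ARBITRARY continuous cocycles: `S (x, y) = (x + α, y + φ x)` on `T^d × T`, `T (w, g) = (S w, ψ w * g)`.
`S` ergodic, every compact group, no hypothesis on `ψ`: the Moebius function.  `T` ergodic: every bounded multiplicative
function. -/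

open MeasureTheory Filter Topology

namespace Pool.Agent.Results.MP_9fe581_an.TwoCocycleTowers

open Pool.Agent.Lib.MP_9fe581_an.HD in
private theorem unif_of_unifOrth {X : Type} {T : X → X} {f : X → ℂ} (h : UnifOrth T f) (u : ℕ → ℂ) (hu : BMult u) :
    TendstoUniformly (fun (N : ℕ) (z : X) => (1 / (N : ℂ)) * ∑ k ∈ Finset.Icc 1 N, u k * f (T^[k] z)) (fun _ => 0) atTop := by
  rw [Metric.tendstoUniformly_iff]
  intro ε hε
  obtain ⟨N0, hN0⟩ := h u hu (ε / 2) (by positivity)
  filter_upwards [eventually_ge_atTop (max N0 1)] with N hN z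
  have hN1 : N0 ≤ N := (le_max_left _ _).trans hN
  have hNp : (0 : ℝ) < N := by exact_mod_cast (le_max_right _ _).trans hN
  rw [dist_zero_left, norm_mul, norm_div, norm_one, Complex.norm_natCast]
  calc 1 / (N : ℝ) * ‖∑ k ∈ Finset.Icc 1 N, u k * f (T^[k] z)‖ ≤ 1 / (N : ℝ) * (ε / 2 * N) :=
        mul_le_mul_of_nonneg_left (hN0 N hN1 z) (by positivity)
    _ = ε / 2 := by field_simp
    _ < ε := by linarith

open Pool.Agent.Lib.MP_9fe581_an.HD in
private theorem short_mu (w : ℂ) (q : ℕ) (hq : 0 < q) (hw : w ^ q = 1) :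
    ShortOrth (fun n => ((ArithmeticFunction.moebius n : ℤ) : ℂ)) w :=
  Pool.Agent.Lib.MRT.short_mu_of (fun _ _ χ => Pool.Agent.Lib.DN.excP0 χ) hq hw

open Pool.Agent.Lib.MP_9fe581_an.HD in
private theorem unif_mu {X : Type} {T : X → X} {f : X → ℂ}
    (h : OrthOn T f (fun n => ((ArithmeticFunction.moebius n : ℤ) : ℂ)) Set.univ) :
    TendstoUniformly (fun (N : ℕ) (z : X) => (1 / (N : ℂ)) * ∑ k ∈ Finset.Icc 1 N,
      f (T^[k] z) * ((ArithmeticFunction.moebius k : ℤ) : ℂ)) (fun _ => 0) atTop := by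
  rw [Metric.tendstoUniformly_iff]
  intro ε hε
  obtain ⟨N0, hN0⟩ := h (ε / 2) (by positivity)
  filter_upwards [eventually_ge_atTop (max N0 1)] with N hN z
  have hN1 : N0 ≤ N := (le_max_left _ _).trans hN
  have hNp : (0 : ℝ) < N := by exact_mod_cast (le_max_right _ _).trans hN
  rw [dist_zero_left, norm_mul, norm_div, norm_one, Complex.norm_natCast]
  have e : ∑ k ∈ Finset.Icc 1 N, f (T^[k] z) * ((ArithmeticFunction.moebius k : ℤ) : ℂ) =
      ∑ k ∈ Finset.Icc 1 N, ((ArithmeticFunction.moebius k : ℤ) : ℂ) * f (T^[k] z) :=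
    Finset.sum_congr rfl fun k _ => mul_comm _ _
  rw [e]
  calc 1 / (N : ℝ) * ‖∑ k ∈ Finset.Icc 1 N, ((ArithmeticFunction.moebius k : ℤ) : ℂ) * f (T^[k] z)‖
      ≤ 1 / (N : ℝ) * (ε / 2 * N) := mul_le_mul_of_nonneg_left (hN0 N hN1 z (Set.mem_univ z)) (by positivity)
    _ = ε / 2 := by field_simp
    _ < ε := by linarith

/-- `φ : T^d → T` and `ψ` are ARBITRARY continuous functions, `S (x, y) = (x + α, y + φ x)` on `Y = T^d × T` is
ergodic for Haar measure.  (A) `T (w, v) = (S w, v + ψ w)` on `Y × T^m`; (B) `G` any compact Hausdorff group,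
`T (w, g) = (S w, ψ w * g)` on `Y × G`: for every continuous `f` the averages of `f (T^k z) μ(k)` tend to `0` uniformly
in `z` (no hypothesis on `ψ`).  If moreover `T` is ergodic for Haar measure (in (B): and `G` is connected and has a faithful
continuous finite dimensional unitary representation), then for EVERY multiplicative `u` bounded by one the averages of
`u(k) (f (T^k z) - ∫ f)` tend to `0` uniformly in `z`. -/
theorem result :
    (∀ (d m : ℕ) (α : UnitAddTorus (Fin d)) (φ : UnitAddTorus (Fin d) → UnitAddCircle)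
      (ψ : UnitAddTorus (Fin d) × UnitAddCircle → UnitAddTorus (Fin m)), Continuous φ → Continuous ψ →
      ∀ (S : UnitAddTorus (Fin d) × UnitAddCircle → UnitAddTorus (Fin d) × UnitAddCircle),
      S = (fun w => (w.1 + α, w.2 + φ w.1)) →
      ∀ ν : Measure (UnitAddTorus (Fin d) × UnitAddCircle),
      ν = (Measure.pi fun _ : Fin d => (AddCircle.haarAddCircle : Measure UnitAddCircle)).prod
        (AddCircle.haarAddCircle : Measure UnitAddCircle) → Ergodic S ν →
      ∀ (T : (UnitAddTorus (Fin d) × UnitAddCircle) × UnitAddTorus (Fin m) →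
        (UnitAddTorus (Fin d) × UnitAddCircle) × UnitAddTorus (Fin m)),
      T = (fun z => (S z.1, z.2 + ψ z.1)) →
      ∀ f : C((UnitAddTorus (Fin d) × UnitAddCircle) × UnitAddTorus (Fin m), ℂ),
      TendstoUniformly (fun (N : ℕ) z => (1 / (N : ℂ)) * ∑ k ∈ Finset.Icc 1 N,
        f (T^[k] z) * ((ArithmeticFunction.moebius k : ℤ) : ℂ)) (fun _ => 0) atTop ∧
      ∀ ν' : Measure ((UnitAddTorus (Fin d) × UnitAddCircle) × UnitAddTorus (Fin m)),
      ν' = ν.prod (Measure.pi fun _ : Fin m => (AddCircle.haarAddCircle : Measure UnitAddCircle)) → Ergodic T ν' →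
      ∀ u : ℕ → ℂ, (∀ n, ‖u n‖ ≤ 1) → (∀ m n, Nat.Coprime m n → u (m * n) = u m * u n) →
        TendstoUniformly (fun (N : ℕ) z => (1 / (N : ℂ)) * ∑ k ∈ Finset.Icc 1 N, u k * (f (T^[k] z) - ∫ w, f w ∂ν'))
          (fun _ => 0) atTop) ∧
    (∀ (d : ℕ) (G : Type) [Group G] [TopologicalSpace G] [IsTopologicalGroup G] [CompactSpace G] [T2Space G]
      (α : UnitAddTorus (Fin d)) (φ : UnitAddTorus (Fin d) → UnitAddCircle)
      (ψ : UnitAddTorus (Fin d) × UnitAddCircle → G), Continuous φ → Continuous ψ →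
      ∀ (S : UnitAddTorus (Fin d) × UnitAddCircle → UnitAddTorus (Fin d) × UnitAddCircle),
      S = (fun w => (w.1 + α, w.2 + φ w.1)) →
      ∀ ν : Measure (UnitAddTorus (Fin d) × UnitAddCircle),
      ν = (Measure.pi fun _ : Fin d => (AddCircle.haarAddCircle : Measure UnitAddCircle)).prod
        (AddCircle.haarAddCircle : Measure UnitAddCircle) → Ergodic S ν →
      ∀ (T : (UnitAddTorus (Fin d) × UnitAddCircle) × G → (UnitAddTorus (Fin d) × UnitAddCircle) × G),
      T = (fun z => (S z.1, ψ z.1 * z.2)) → ∀ f : C((UnitAddTorus (Fin d) × UnitAddCircle) × G, ℂ),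
      TendstoUniformly (fun (N : ℕ) z => (1 / (N : ℂ)) * ∑ k ∈ Finset.Icc 1 N,
        f (T^[k] z) * ((ArithmeticFunction.moebius k : ℤ) : ℂ)) (fun _ => 0) atTop ∧
      ∀ [ConnectedSpace G] [MeasurableSpace G] [BorelSpace G] (μ : Measure G) [μ.IsHaarMeasure] [IsProbabilityMeasure μ]
      (n : ℕ) (ρ : G →* Matrix.unitaryGroup (Fin n) ℂ), Continuous ρ → Function.Injective ρ →
      ∀ ν' : Measure ((UnitAddTorus (Fin d) × UnitAddCircle) × G), ν' = ν.prod μ → Ergodic T ν' →
      ∀ u : ℕ → ℂ, (∀ n, ‖u n‖ ≤ 1) → (∀ m n, Nat.Coprime m n → u (m * n) = u m * u n) →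
        TendstoUniformly (fun (N : ℕ) z => (1 / (N : ℂ)) * ∑ k ∈ Finset.Icc 1 N, u k * (f (T^[k] z) - ∫ w, f w ∂ν'))
          (fun _ => 0) atTop) := by
  constructor
  · intro d m α φ ψ hφ hψ S hS ν hν hE T hT f
    subst hS
    subst hT
    subst hν
    refine ⟨?_, fun ν' hν' hE' u hu1 hu2 => ?_⟩
    · have h1 := unif_mu (Pool.Agent.Lib.MP_9fe581_an.TW.mob_tower (κ := Fin d) (α := α) hφ hE
        Pool.Agent.Lib.MP_9fe581_an.HD.moeb_bmult short_mu
        (ψ := fun z => (Multiplicative.ofAdd (ψ z) : Multiplicative (UnitAddTorus (Fin m))))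
        (continuous_ofAdd.comp hψ) f)
      have h2 : Pool.Agent.Lib.MP_9fe581_an.HT.skew (Pool.Agent.Lib.MP_9fe581_an.TW.SS α φ)
          (fun z => (Multiplicative.ofAdd (ψ z) : Multiplicative (UnitAddTorus (Fin m)))) =
          fun z : (UnitAddTorus (Fin d) × UnitAddCircle) × UnitAddTorus (Fin m) =>
            (((z.1.1 + α, z.1.2 + φ z.1.1) : UnitAddTorus (Fin d) × UnitAddCircle), z.2 + ψ z.1) := by
        funext z
        exact Prod.ext rfl (add_comm (ψ z.1) z.2)
      rw [h2] at h1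
      exact h1
    · subst hν'
      exact unif_of_unifOrth (Pool.Agent.Lib.MP_9fe581_an.TW.unifOrth_towerT (α := α) hφ hψ hE' f) u ⟨hu1, hu2⟩
  · intro d G _ _ _ _ _ α φ ψ hφ hψ S hS ν hν hE T hT f
    subst hS
    subst hT
    subst hν
    refine ⟨unif_mu (Pool.Agent.Lib.MP_9fe581_an.TW.mob_tower (κ := Fin d) (α := α) hφ hE
      Pool.Agent.Lib.MP_9fe581_an.HD.moeb_bmult short_mu hψ f), ?_⟩
    intro _ _ _ μ _ _ n ρ hρ hinj ν' hν' hE' u hu1 hu2
    subst hν'
    have : SecondCountableTopology (Matrix (Fin n) (Fin n) ℂ) :=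
      inferInstanceAs (SecondCountableTopology (Fin n → Fin n → ℂ))
    have : SecondCountableTopology (Matrix.unitaryGroup (Fin n) ℂ) := TopologicalSpace.Subtype.secondCountableTopology _
    have : SecondCountableTopology G :=
      (hρ.isClosedEmbedding hinj).isEmbedding.secondCountableTopology
    have hrep : Pool.Agent.Lib.MP_9fe581_an.HD.URep (fun g => ((ρ g : Matrix.unitaryGroup (Fin n) ℂ) : Matrix (Fin n) (Fin n) ℂ)) := by
      refine ⟨continuous_subtype_val.comp hρ, by simp, fun g h => by simp, fun g => ?_⟩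
      exact (Matrix.mem_unitaryGroup_iff).1 (ρ g).2
    exact unif_of_unifOrth (Pool.Agent.Lib.MP_9fe581_an.TW.unifOrth_tower (μ := μ) (α := α) hrep
      (fun a b hab => hinj (Subtype.ext hab)) hφ hψ hE' f) u ⟨hu1, hu2⟩

end Pool.Agent.Results.MP_9fe581_an.TwoCocycleTowers
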